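import Pool.Agent.KK.StmtsC
import Pool.Agent.Helper62_KK.WKT
import Pool.Agent.Helper13_KK.Count

/-!
# KK row TCL, part 1: most states of a closed set stay in it
-/

set_option autoImplicit false

open scoped BigOperators

namespace Pool.Agent.KK.H16

section abs

variable {Ω : Type} [Fintype Ω]

/-- walks of the reversed digraph -/
theorem wk_rev (E : Ω → Ω → Prop) (m : ℕ) : ∀ s t : Ω,
    wk (fun x y => E y x) m s t = wk E m t s := by
  classical
  induction m with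
  | zero =>
    intro s t
    simp only [wk]
    by_cases h : s = t
    · rw [if_pos h, if_pos h.symm]
    · rw [if_neg h, if_neg (Ne.symm h)]
  | succ m ih =>
    intro s t
    rw [H62.wk_succ' E m t s]
    have h1 : wk (fun x y => E y x) (m + 1) s t =
        ∑ z : Ω, wk (fun x y => E y x) m s z * (if E t z then 1 else 0) := by
      rw [wk]
    rw [h1]
    refine Finset.sum_congr rfl fun z _ => ?_
    rw [ih, mul_comm]

open Classical in
theorem wk_succ_real (E : Ω → Ω → Prop) (m : ℕ) (s t : Ω) :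
    (wk E (m + 1) s t : ℝ) = ∑ z : Ω, (wk E m s z : ℝ) * (if E z t then 1 else 0) := by
  rw [wk]
  push_cast
  rfl

theorem card_filter_real (p : Ω → Prop) [DecidablePred p] :
    (∑ z : Ω, (if p z then (1 : ℝ) else 0)) = ({z | p z}.ncard : ℝ) := by
  rw [Finset.sum_boole, Set.ncard_eq_toFinset_card']
  congr 2
  ext z
  simp

open Classical in
theorem in_total (E : Ω → Ω → Prop) {N : ℝ} (hN : 0 ≤ N)
    (hin : ∀ t, ({z | E z t}.ncard : ℝ) ≤ N) (m : ℕ) : ∀ t : Ω,
    ∑ s : Ω, (wk E m s t : ℝ) ≤ N ^ m := by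
  induction m with
  | zero =>
    intro t
    rw [pow_zero]
    have h1 : ∀ s : Ω, (wk E 0 s t : ℝ) = if s = t then 1 else 0 := by
      intro s
      simp only [wk]
      by_cases h : s = t
      · rw [if_pos h, if_pos h, Nat.cast_one]
      · rw [if_neg h, if_neg h, Nat.cast_zero]
    rw [Finset.sum_congr rfl fun s _ => h1 s]
    simp
  | succ m ih =>
    intro t
    have h1 : ∑ s : Ω, (wk E (m + 1) s t : ℝ) =
        ∑ z : Ω, (∑ s : Ω, (wk E m s z : ℝ)) * (if E z t then 1 else 0) := by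
      rw [Finset.sum_congr rfl fun s _ => wk_succ_real E m s t, Finset.sum_comm]
      refine Finset.sum_congr rfl fun z _ => ?_
      rw [Finset.sum_mul]
    rw [h1]
    calc ∑ z : Ω, (∑ s : Ω, (wk E m s z : ℝ)) * (if E z t then 1 else 0)
        ≤ ∑ z : Ω, N ^ m * (if E z t then 1 else 0) := by
          refine Finset.sum_le_sum fun z _ => ?_
          refine mul_le_mul_of_nonneg_right (ih z) ?_
          split_ifs
          · exact zero_le_one
          · exact le_rfl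
      _ = N ^ m * ({z | E z t}.ncard : ℝ) := by
          rw [← Finset.mul_sum, card_filter_real]
      _ ≤ N ^ m * N := mul_le_mul_of_nonneg_left (hin t) (pow_nonneg hN m)
      _ = N ^ (m + 1) := by rw [pow_succ]

open Classical in
theorem out_lower (E : Ω → Ω → Prop) {N : ℝ} (I : Set Ω)
    (hI : ∀ s ∈ I, N / 2 ≤ ({z | z ∈ I ∧ E s z}.ncard : ℝ)) (hN : 0 ≤ N) (m : ℕ) (s : Ω)
    (hs : s ∈ I) :
    (N / 2) ^ m ≤ ∑ z : Ω, (if z ∈ I then (wk E m s z : ℝ) else 0) := by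
  induction m with
  | zero =>
    rw [pow_zero]
    have h1 : (if s ∈ I then (wk E 0 s s : ℝ) else 0) = 1 := by
      rw [if_pos hs]
      simp [wk]
    rw [← h1]
    refine Finset.single_le_sum (f := fun z => if z ∈ I then (wk E 0 s z : ℝ) else 0) ?_
      (Finset.mem_univ s)
    intro z _
    split_ifs
    · exact Nat.cast_nonneg _
    · exact le_rfl
  | succ m ih =>
    have h1 : ∑ z : Ω, (if z ∈ I then (wk E (m + 1) s z : ℝ) else 0) =
        ∑ y : Ω, (wk E m s y : ℝ) * ({z | z ∈ I ∧ E y z}.ncard : ℝ) := by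
      have h2 : ∀ z : Ω, (if z ∈ I then (wk E (m + 1) s z : ℝ) else 0) =
          ∑ y : Ω, (wk E m s y : ℝ) * (if z ∈ I ∧ E y z then 1 else 0) := by
        intro z
        by_cases hz : z ∈ I
        · rw [if_pos hz, wk_succ_real]
          refine Finset.sum_congr rfl fun y _ => ?_
          by_cases hy : E y z
          · rw [if_pos hy, if_pos ⟨hz, hy⟩]
          · rw [if_neg hy, if_neg (fun h => hy h.2)]
        · rw [if_neg hz]
          symm
          refine Finset.sum_eq_zero fun y _ => ?_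
          rw [if_neg (fun h => hz h.1), mul_zero]
      rw [Finset.sum_congr rfl fun z _ => h2 z, Finset.sum_comm]
      refine Finset.sum_congr rfl fun y _ => ?_
      rw [← Finset.mul_sum, card_filter_real]
    rw [h1, pow_succ]
    calc (N / 2) ^ m * (N / 2) ≤
        (∑ z : Ω, (if z ∈ I then (wk E m s z : ℝ) else 0)) * (N / 2) :=
          mul_le_mul_of_nonneg_right ih (by positivity)
      _ = ∑ z : Ω, (if z ∈ I then (wk E m s z : ℝ) else 0) * (N / 2) := Finset.sum_mul _ _ _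
      _ ≤ _ := by
          refine Finset.sum_le_sum fun z _ => ?_
          by_cases hz : z ∈ I
          · rw [if_pos hz]
            exact mul_le_mul_of_nonneg_left (hI z hz) (Nat.cast_nonneg _)
          · rw [if_neg hz, zero_mul]
            positivity

open Classical in
/-- walks with `m` steps from `U` which end outside -/
noncomputable def lk (E : Ω → Ω → Prop) (U : Set Ω) (m : ℕ) : ℝ :=
  ∑ s : Ω, ∑ z : Ω, (if s ∈ U ∧ z ∉ U then (wk E m s z : ℝ) else 0)

open Classical in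
theorem lk_zero (E : Ω → Ω → Prop) (U : Set Ω) : lk E U 0 = 0 := by
  unfold lk
  refine Finset.sum_eq_zero fun s _ => Finset.sum_eq_zero fun z _ => ?_
  by_cases h : s ∈ U ∧ z ∉ U
  · rw [if_pos h]
    simp only [wk]
    rw [if_neg, Nat.cast_zero]
    rintro rfl
    exact h.2 h.1
  · rw [if_neg h]

open Classical in
theorem lk_succ (E : Ω → Ω → Prop) (U : Set Ω) {N : ℝ} (hN : 0 ≤ N)
    (hin : ∀ t, ({z | E z t}.ncard : ℝ) ≤ N) (hout : ∀ s, ({z | E s z}.ncard : ℝ) ≤ N) (m : ℕ) :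
    lk E U (m + 1) ≤ N * lk E U m +
      N ^ m * ({p : Ω × Ω | p.1 ∈ U ∧ p.2 ∉ U ∧ E p.1 p.2}.ncard : ℝ) := by
  -- number of steps from `y` to the complement
  have h1 : lk E U (m + 1) = ∑ y : Ω, (∑ s : Ω, (if s ∈ U then (wk E m s y : ℝ) else 0)) *
      ({z | z ∉ U ∧ E y z}.ncard : ℝ) := by
    unfold lk
    have h2 : ∀ s z : Ω, (if s ∈ U ∧ z ∉ U then (wk E (m + 1) s z : ℝ) else 0) =
        ∑ y : Ω, (if s ∈ U then (wk E m s y : ℝ) else 0) *
          (if z ∉ U ∧ E y z then 1 else 0) := by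
      intro s z
      by_cases hs : s ∈ U
      · by_cases hz : z ∉ U
        · rw [if_pos ⟨hs, hz⟩, wk_succ_real]
          refine Finset.sum_congr rfl fun y _ => ?_
          rw [if_pos hs]
          by_cases hy : E y z
          · rw [if_pos hy, if_pos ⟨hz, hy⟩]
          · rw [if_neg hy, if_neg (fun h => hy h.2)]
        · rw [if_neg (fun h => hz h.2)]
          symm
          refine Finset.sum_eq_zero fun y _ => ?_
          have hz' : ¬ (z ∉ U ∧ E y z) := fun h => hz h.1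
          rw [if_neg hz', mul_zero]
      · rw [if_neg (fun h => hs h.1)]
        symm
        refine Finset.sum_eq_zero fun y _ => ?_
        rw [if_neg hs, zero_mul]
    rw [Finset.sum_congr rfl fun s _ => Finset.sum_congr rfl fun z _ => h2 s z]
    have h3 : ∀ s : Ω, ∑ z : Ω, ∑ y : Ω, (if s ∈ U then (wk E m s y : ℝ) else 0) *
          (if z ∉ U ∧ E y z then 1 else 0) =
        ∑ y : Ω, (if s ∈ U then (wk E m s y : ℝ) else 0) * ({z | z ∉ U ∧ E y z}.ncard : ℝ) := by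
      intro s
      rw [Finset.sum_comm]
      refine Finset.sum_congr rfl fun y _ => ?_
      rw [← Finset.mul_sum, card_filter_real]
    rw [Finset.sum_congr rfl fun s _ => h3 s, Finset.sum_comm]
    refine Finset.sum_congr rfl fun y _ => ?_
    rw [Finset.sum_mul]
  have ha : ∀ y : Ω, 0 ≤ ∑ s : Ω, (if s ∈ U then (wk E m s y : ℝ) else 0) := by
    intro y
    refine Finset.sum_nonneg fun s _ => ?_
    split_ifs
    · exact Nat.cast_nonneg _
    · exact le_rfl
  have hb : ∀ y : Ω, ∑ s : Ω, (if s ∈ U then (wk E m s y : ℝ) else 0) ≤ N ^ m := by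
    intro y
    refine le_trans (Finset.sum_le_sum fun s _ => ?_) (in_total E hN hin m y)
    split_ifs
    · exact le_rfl
    · exact Nat.cast_nonneg _
  have hc : ∀ y : Ω, ({z | z ∉ U ∧ E y z}.ncard : ℝ) ≤ N := by
    intro y
    refine le_trans ?_ (hout y)
    have h3 : {z | z ∉ U ∧ E y z}.ncard ≤ {z | E y z}.ncard :=
      Set.ncard_le_ncard (fun z (hz : z ∉ U ∧ E y z) => hz.2)
    exact_mod_cast h3
  have hd : lk E U m = ∑ y : Ω, (if y ∉ U then
      ∑ s : Ω, (if s ∈ U then (wk E m s y : ℝ) else 0) else 0) := by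
    unfold lk
    rw [Finset.sum_comm]
    refine Finset.sum_congr rfl fun y _ => ?_
    by_cases hy : y ∉ U
    · rw [if_pos hy]
      refine Finset.sum_congr rfl fun s _ => ?_
      by_cases hs : s ∈ U
      · rw [if_pos ⟨hs, hy⟩, if_pos hs]
      · rw [if_neg (fun h => hs h.1), if_neg hs]
    · rw [if_neg hy]
      refine Finset.sum_eq_zero fun s _ => ?_
      rw [if_neg (fun h => hy h.2)]
  have he : ({p : Ω × Ω | p.1 ∈ U ∧ p.2 ∉ U ∧ E p.1 p.2}.ncard : ℝ) =
      ∑ y : Ω, (if y ∉ U then 0 else ({z | z ∉ U ∧ E y z}.ncard : ℝ)) := by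
    rw [ncard_fib]
    push_cast
    refine Finset.sum_congr rfl fun y _ => ?_
    by_cases hy : y ∉ U
    · rw [if_pos hy]
      have : {b | (y, b) ∈ {p : Ω × Ω | p.1 ∈ U ∧ p.2 ∉ U ∧ E p.1 p.2}} = ∅ := by
        ext b
        simp only [Set.mem_ofPred_eq, Set.mem_empty_iff_false, iff_false]
        exact fun h => hy h.1
      rw [this, Set.ncard_empty, Nat.cast_zero]
    · rw [if_neg hy]
      congr 2
      ext b
      simp only [Set.mem_ofPred_eq]
      exact ⟨fun h => h.2, fun h => ⟨not_not.1 hy, h⟩⟩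
  rw [h1, hd, he, Finset.mul_sum, Finset.mul_sum, ← Finset.sum_add_distrib]
  refine Finset.sum_le_sum fun y _ => ?_
  by_cases hy : y ∉ U
  · rw [if_pos hy, if_pos hy, mul_zero, add_zero, mul_comm]
    exact mul_le_mul_of_nonneg_right (hc y) (ha y)
  · rw [if_neg hy, if_neg hy, mul_zero, zero_add]
    exact mul_le_mul_of_nonneg_right (hb y) (Nat.cast_nonneg _)

theorem lk_le (E : Ω → Ω → Prop) (U : Set Ω) {N : ℝ} (hN : 0 ≤ N)
    (hin : ∀ t, ({z | E z t}.ncard : ℝ) ≤ N) (hout : ∀ s, ({z | E s z}.ncard : ℝ) ≤ N) (m : ℕ) :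
    lk E U (m + 1) ≤ (m + 1) * N ^ m *
      ({p : Ω × Ω | p.1 ∈ U ∧ p.2 ∉ U ∧ E p.1 p.2}.ncard : ℝ) := by
  induction m with
  | zero =>
    have h := lk_succ E U hN hin hout 0
    rw [lk_zero, mul_zero, zero_add] at h
    simpa using h
  | succ m ih =>
    have h := lk_succ E U hN hin hout (m + 1)
    have h2 := mul_le_mul_of_nonneg_left ih hN
    refine le_trans h ?_
    push_cast
    have h3 : N * (((m : ℝ) + 1) * N ^ m *
        ({p : Ω × Ω | p.1 ∈ U ∧ p.2 ∉ U ∧ E p.1 p.2}.ncard : ℝ)) =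
        ((m : ℝ) + 1) * N ^ (m + 1) *
        ({p : Ω × Ω | p.1 ∈ U ∧ p.2 ∉ U ∧ E p.1 p.2}.ncard : ℝ) := by
      rw [pow_succ]
      ring
    rw [h3] at h2
    linarith

open Classical in
/-- few states of a closed set `U` lead mostly out of it -/
theorem few_bad (E : Ω → Ω → Prop) {N : ℝ} (hN : 0 < N) (U I : Set Ω) (d : ℕ) {ε' : ℝ}
    (hin : ∀ t, ({z | E z t}.ncard : ℝ) ≤ N) (hout : ∀ s, ({z | E s z}.ncard : ℝ) ≤ N)
    (hI : ∀ s ∈ I, N / 2 ≤ ({z | z ∈ I ∧ E s z}.ncard : ℝ))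
    (hU : ({p : Ω × Ω | p.1 ∈ U ∧ p.2 ∉ U ∧ E p.1 p.2}.ncard : ℝ) ≤ ε' * N ^ (d + 2)) :
    ({s | s ∈ U ∧ s ∈ I ∧ ¬ (1 / 2 : ℝ) ^ (d + 3) * N ^ (d + 1) ≤
      ∑ᶠ z ∈ U, (wk E (d + 1) s z : ℝ)}.ncard : ℝ) ≤
      (d + 1) * 2 ^ (d + 2) * ε' * N ^ (d + 1) := by
  set B : Set Ω := {s | s ∈ U ∧ s ∈ I ∧ ¬ (1 / 2 : ℝ) ^ (d + 3) * N ^ (d + 1) ≤
      ∑ᶠ z ∈ U, (wk E (d + 1) s z : ℝ)} with hB
  have hfs : ∀ s : Ω, ∑ᶠ z ∈ U, (wk E (d + 1) s z : ℝ) =
      ∑ z : Ω, (if z ∈ U then (wk E (d + 1) s z : ℝ) else 0) := by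
    intro s
    have h1 : ∀ z : Ω, ∑ᶠ (_ : z ∈ U), (wk E (d + 1) s z : ℝ) =
        if z ∈ U then (wk E (d + 1) s z : ℝ) else 0 := fun z => finsum_eq_if
    rw [finsum_congr h1, finsum_eq_sum_of_fintype]
  -- every bad state has many walks to the outside
  have hkey : ∀ s ∈ B, (1 / 2 : ℝ) ^ (d + 2) * N ^ (d + 1) ≤
      ∑ z : Ω, (if s ∈ U ∧ z ∉ U then (wk E (d + 1) s z : ℝ) else 0) := by
    intro s hs
    obtain ⟨hsU, hsI, hs3⟩ := hs
    rw [hfs] at hs3
    push Not at hs3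
    have h1 := out_lower E I hI hN.le (d + 1) s hsI
    have h2 : ∑ z : Ω, (if z ∈ I then (wk E (d + 1) s z : ℝ) else 0) ≤
        ∑ z : Ω, (if z ∈ U then (wk E (d + 1) s z : ℝ) else 0) +
        ∑ z : Ω, (if s ∈ U ∧ z ∉ U then (wk E (d + 1) s z : ℝ) else 0) := by
      rw [← Finset.sum_add_distrib]
      refine Finset.sum_le_sum fun z _ => ?_
      have h0 : (0 : ℝ) ≤ (wk E (d + 1) s z : ℝ) := Nat.cast_nonneg _
      by_cases hz : z ∈ U
      · by_cases hi : z ∈ I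
        · simp [hz, hi]
        · simp [hz, hi]
      · by_cases hi : z ∈ I
        · simp [hz, hi, hsU]
        · simp [hz, hi, hsU]
    have h3 : (N / 2) ^ (d + 1) = (1 / 2 : ℝ) ^ (d + 1) * N ^ (d + 1) := by
      rw [div_eq_mul_one_div, mul_comm, mul_pow]
    have h4 : (0 : ℝ) ≤ (1 / 2 : ℝ) ^ (d + 1) * N ^ (d + 1) := by positivity
    have h5 : (1 / 2 : ℝ) ^ (d + 3) * N ^ (d + 1) =
        (1 / 4) * ((1 / 2 : ℝ) ^ (d + 1) * N ^ (d + 1)) := by
      rw [pow_add (1 / 2 : ℝ) (d + 1) 2]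
      ring
    have h6 : (1 / 2 : ℝ) ^ (d + 2) * N ^ (d + 1) =
        (1 / 2) * ((1 / 2 : ℝ) ^ (d + 1) * N ^ (d + 1)) := by
      rw [pow_add (1 / 2 : ℝ) (d + 1) 1]
      ring
    rw [h3] at h1
    rw [h5] at hs3
    rw [h6]
    linarith
  -- sum over the bad states
  have h7 : (B.ncard : ℝ) * ((1 / 2 : ℝ) ^ (d + 2) * N ^ (d + 1)) ≤ lk E U (d + 1) := by
    have h8 : (B.ncard : ℝ) = ∑ s : Ω, (if s ∈ B then (1 : ℝ) else 0) := by
      exact (card_filter_real (fun s => s ∈ B)).symm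
    rw [h8, Finset.sum_mul]
    unfold lk
    refine Finset.sum_le_sum fun s _ => ?_
    by_cases hs : s ∈ B
    · rw [if_pos hs, one_mul]
      exact hkey s hs
    · rw [if_neg hs, zero_mul]
      refine Finset.sum_nonneg fun z _ => ?_
      split_ifs
      · exact Nat.cast_nonneg _
      · exact le_rfl
  have h9 := lk_le E U hN.le hin hout d
  have h10 : ((d : ℝ) + 1) * N ^ d *
      ({p : Ω × Ω | p.1 ∈ U ∧ p.2 ∉ U ∧ E p.1 p.2}.ncard : ℝ) ≤
      ((d : ℝ) + 1) * N ^ d * (ε' * N ^ (d + 2)) :=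
    mul_le_mul_of_nonneg_left hU (by positivity)
  have h11 : (B.ncard : ℝ) * ((1 / 2 : ℝ) ^ (d + 2) * N ^ (d + 1)) ≤
      ((d : ℝ) + 1) * N ^ d * (ε' * N ^ (d + 2)) := le_trans h7 (le_trans h9 h10)
  have h12 : (0 : ℝ) < (1 / 2 : ℝ) ^ (d + 2) * N ^ (d + 1) := by positivity
  have h13 : ((d : ℝ) + 1) * N ^ d * (ε' * N ^ (d + 2)) =
      ((d + 1) * 2 ^ (d + 2) * ε' * N ^ (d + 1)) * ((1 / 2 : ℝ) ^ (d + 2) * N ^ (d + 1)) := by
    have h14 : (2 : ℝ) ^ (d + 2) * (1 / 2 : ℝ) ^ (d + 2) = 1 := by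
      rw [← mul_pow]
      norm_num
    have h15 : N ^ d * N ^ (d + 2) = N ^ (d + 1) * N ^ (d + 1) := by
      rw [← pow_add, ← pow_add]
      congr 1
      omega
    calc ((d : ℝ) + 1) * N ^ d * (ε' * N ^ (d + 2)) =
        ((d : ℝ) + 1) * ε' * (N ^ d * N ^ (d + 2)) := by ring
      _ = ((d : ℝ) + 1) * ε' * (N ^ (d + 1) * N ^ (d + 1)) *
          ((2 : ℝ) ^ (d + 2) * (1 / 2 : ℝ) ^ (d + 2)) := by rw [h14, h15, mul_one]
      _ = _ := by ring
  rw [h13] at h11
  exact le_of_mul_le_mul_right h11 h12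

end abs

end Pool.Agent.KK.H16
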