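import Pool.Agent.Helper16_KK.Deg

/-!
# KK row TCL, part 3: tuples and edges without a good ordering
-/

set_option autoImplicit false
set_option linter.unusedSectionVars false

open scoped BigOperators

namespace Pool.Agent.KK.H16

section cnt

variable {V : Type} [Fintype V] [DecidableEq V]

theorem exists_comp {m m' : ℕ} (f : Fin m → V) (g : Fin m' → V)
    (h : Finset.univ.image g ⊆ Finset.univ.image f) : ∃ σ : Fin m' → Fin m, f ∘ σ = g := by
  have h1 : ∀ i, ∃ j, f j = g i := by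
    intro i
    have h2 := h (Finset.mem_image_of_mem g (Finset.mem_univ i))
    rw [Finset.mem_image] at h2
    obtain ⟨j, -, hj⟩ := h2
    exact ⟨j, hj⟩
  choose σ hσ using h1
  exact ⟨σ, funext hσ⟩

theorem ncard_img2 {A B C : Type} [Finite A] [Finite B] (S : Set A) (F : A → B → C) :
    {c | ∃ a ∈ S, ∃ b, F a b = c}.ncard ≤ S.ncard * Nat.card B := by
  have h : {c | ∃ a ∈ S, ∃ b, F a b = c} = (fun p : A × B => F p.1 p.2) '' (S ×ˢ Set.univ) := by
    ext c
    constructor
    · rintro ⟨a, ha, b, hb⟩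
      exact ⟨(a, b), ⟨ha, Set.mem_univ _⟩, hb⟩
    · rintro ⟨p, hp, hc⟩
      exact ⟨p.1, hp.1, p.2, hc⟩
  rw [h]
  refine le_trans (Set.ncard_image_le) ?_
  rw [Set.ncard_prod, Set.ncard_univ]

end cnt

section asm

variable {V : Type} [Fintype V] [DecidableEq V] (H : Finset (Finset V)) {d q : ℕ}

theorem ofFn_mem_tups {U : Set (Sta V d)} {s : Sta V d} (hs : s ∈ U) (hb : s ∉ Bad H U) :
    List.ofFn s.1 ∈ tups H U ((1 / 2 : ℝ) ^ (d + 3)) := by
  by_contra h
  exact hb ⟨hs, h⟩

theorem toFinset_ofFn {m : ℕ} (f : Fin m → V) :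
    (List.ofFn f).toFinset = Finset.univ.image f := by
  ext x
  simp [List.mem_ofFn]

/-- tuples without a rearrangement in a class -/
theorem p2_part (U : Fin q → Set (Sta V d)) {b0 e0 : ℝ}
    (hbad : ∀ i, ((Bad H (U i)).ncard : ℝ) ≤ b0)
    (hA : ({g : Fin (d + 1) → V | ¬ ∃ (i : Fin q) (f : Fin (d + 1) → V) (t : ZMod (d + 2)),
          Finset.univ.image f = Finset.univ.image g ∧ (f, t) ∈ U i}.ncard : ℝ) ≤ e0) :
    ({g : Fin (d + 1) → V | ¬ ∃ i, ∃ l ∈ tups H (U i) ((1 / 2 : ℝ) ^ (d + 3)),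
      l.toFinset = Finset.univ.image g}.ncard : ℝ) ≤
      e0 + q * (b0 * ((d : ℝ) + 1) ^ (d + 1)) := by
  classical
  set A : Set (Fin (d + 1) → V) := {g | ¬ ∃ (i : Fin q) (f : Fin (d + 1) → V) (t : ZMod (d + 2)),
          Finset.univ.image f = Finset.univ.image g ∧ (f, t) ∈ U i} with hAdef
  set B : Fin q → Set (Fin (d + 1) → V) := fun i =>
    {g | ∃ s ∈ Bad H (U i), ∃ σ : Fin (d + 1) → Fin (d + 1), s.1 ∘ σ = g} with hB
  have hsub : {g : Fin (d + 1) → V | ¬ ∃ i, ∃ l ∈ tups H (U i) ((1 / 2 : ℝ) ^ (d + 3)),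
      l.toFinset = Finset.univ.image g} ⊆ A ∪ ⋃ i ∈ (Finset.univ : Finset (Fin q)), B i := by
    intro g hg
    by_cases hgA : g ∈ A
    · exact Or.inl hgA
    · right
      have hgA' : ∃ (i : Fin q) (f : Fin (d + 1) → V) (t : ZMod (d + 2)),
          Finset.univ.image f = Finset.univ.image g ∧ (f, t) ∈ U i := by
        by_contra h
        exact hgA h
      obtain ⟨i, f, t, hfg, hft⟩ := hgA'
      rw [Set.mem_iUnion₂]
      refine ⟨i, Finset.mem_univ i, ?_⟩
      have hbd : ((f, t) : Sta V d) ∈ Bad H (U i) := by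
        by_contra hb
        exact hg ⟨i, List.ofFn f, ofFn_mem_tups H hft hb, by rw [toFinset_ofFn, hfg]⟩
      obtain ⟨σ, hσ⟩ := exists_comp f g (le_of_eq hfg.symm)
      exact ⟨(f, t), hbd, σ, hσ⟩
  have h1 := Set.ncard_le_ncard hsub
  have h2 := Set.ncard_union_le A (⋃ i ∈ (Finset.univ : Finset (Fin q)), B i)
  have h3 := ncard_union_bound (Finset.univ : Finset (Fin q)) B
  have h4 : ∀ i, ((B i).ncard : ℝ) ≤ b0 * ((d : ℝ) + 1) ^ (d + 1) := by
    intro i
    have h5 := ncard_img2 (Bad H (U i)) (fun s (σ : Fin (d + 1) → Fin (d + 1)) => s.1 ∘ σ)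
    have h6 : Nat.card (Fin (d + 1) → Fin (d + 1)) = (d + 1) ^ (d + 1) := by
      rw [Nat.card_eq_fintype_card, Fintype.card_fun, Fintype.card_fin]
    rw [h6] at h5
    have h7 : ((B i).ncard : ℝ) ≤ ((Bad H (U i)).ncard : ℝ) * ((d : ℝ) + 1) ^ (d + 1) := by
      exact_mod_cast h5
    exact le_trans h7 (mul_le_mul_of_nonneg_right (hbad i) (by positivity))
  have h8 : ((∑ i : Fin q, (B i).ncard : ℕ) : ℝ) ≤ q * (b0 * ((d : ℝ) + 1) ^ (d + 1)) := by
    push_cast
    refine le_trans (Finset.sum_le_sum fun i _ => h4 i) ?_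
    rw [Finset.sum_const, Finset.card_univ, Fintype.card_fin, nsmul_eq_mul]
  have h9 : ({g : Fin (d + 1) → V | ¬ ∃ i, ∃ l ∈ tups H (U i) ((1 / 2 : ℝ) ^ (d + 3)),
      l.toFinset = Finset.univ.image g}.ncard : ℝ) ≤
      (A.ncard : ℝ) + ((∑ i : Fin q, (B i).ncard : ℕ) : ℝ) := by
    exact_mod_cast le_trans h1 (le_trans h2 (Nat.add_le_add_left h3 _))
  linarith

/-- edges without a good ordering -/
theorem e1_part (hH : Uni H (d + 2)) (U : Fin q → Set (Sta V d)) {b0 e0 : ℝ}
    (hbad : ∀ i, ((Bad H (U i)).ncard : ℝ) ≤ b0)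
    (hA : ({e : Fin (d + 2) → V | Finset.univ.image e ∈ H ∧ ¬ ∃ (i : Fin q)
        (f : Fin (d + 2) → V) (t : ZMod (d + 2)), Finset.univ.image f = Finset.univ.image e ∧
          (Fin.init f, t) ∈ U i ∧ (Fin.tail f, t + 1) ∈ U i}.ncard : ℝ) ≤ e0) :
    ({e : Fin (d + 2) → V | Finset.univ.image e ∈ H ∧
      ¬ OrdIn H (d + 2) (fun i => tups H (U i) ((1 / 2 : ℝ) ^ (d + 3)))
        (Finset.univ.image e)}.ncard : ℝ) ≤
      e0 + q * (2 * (b0 * Fintype.card V * ((d : ℝ) + 2) ^ (d + 2))) := by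
  classical
  set A : Set (Fin (d + 2) → V) := {e | Finset.univ.image e ∈ H ∧ ¬ ∃ (i : Fin q)
        (f : Fin (d + 2) → V) (t : ZMod (d + 2)), Finset.univ.image f = Finset.univ.image e ∧
          (Fin.init f, t) ∈ U i ∧ (Fin.tail f, t + 1) ∈ U i} with hAdef
  set B : Fin q → Set (Fin (d + 2) → V) := fun i =>
    {g | ∃ p ∈ (Bad H (U i)) ×ˢ (Set.univ : Set V), ∃ σ : Fin (d + 2) → Fin (d + 2),
      (Fin.snoc p.1.1 p.2 : Fin (d + 2) → V) ∘ σ = g} with hB
  set C : Fin q → Set (Fin (d + 2) → V) := fun i =>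
    {g | ∃ p ∈ (Bad H (U i)) ×ˢ (Set.univ : Set V), ∃ σ : Fin (d + 2) → Fin (d + 2),
      (Fin.cons p.2 p.1.1 : Fin (d + 2) → V) ∘ σ = g} with hC
  have hsub : {e : Fin (d + 2) → V | Finset.univ.image e ∈ H ∧
      ¬ OrdIn H (d + 2) (fun i => tups H (U i) ((1 / 2 : ℝ) ^ (d + 3)))
        (Finset.univ.image e)} ⊆ A ∪ ⋃ i ∈ (Finset.univ : Finset (Fin q)), (B i ∪ C i) := by
    rintro e ⟨heH, heO⟩
    by_cases heA : e ∈ A
    · exact Or.inl heA
    · right
      have heA' : ∃ (i : Fin q) (f : Fin (d + 2) → V) (t : ZMod (d + 2)),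
          Finset.univ.image f = Finset.univ.image e ∧
          (Fin.init f, t) ∈ U i ∧ (Fin.tail f, t + 1) ∈ U i := by
        by_contra h
        exact heA ⟨heH, h⟩
      obtain ⟨i, f, t, hfe, hf1, hf2⟩ := heA'
      rw [Set.mem_iUnion₂]
      refine ⟨i, Finset.mem_univ i, ?_⟩
      obtain ⟨σ, hσ⟩ := exists_comp f e (le_of_eq hfe.symm)
      by_cases hb1 : ((Fin.init f, t) : Sta V d) ∈ Bad H (U i)
      · left
        refine ⟨((Fin.init f, t), f (Fin.last (d + 1))), ⟨hb1, Set.mem_univ _⟩, σ, ?_⟩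
        have h1 : (Fin.snoc (Fin.init f) (f (Fin.last (d + 1))) : Fin (d + 2) → V) = f :=
          Fin.snoc_init_self f
        change (Fin.snoc (Fin.init f) (f (Fin.last (d + 1))) : Fin (d + 2) → V) ∘ σ = e
        rw [h1, hσ]
      · by_cases hb2 : ((Fin.tail f, t + 1) : Sta V d) ∈ Bad H (U i)
        · right
          refine ⟨((Fin.tail f, t + 1), f 0), ⟨hb2, Set.mem_univ _⟩, σ, ?_⟩
          have h1 : (Fin.cons (f 0) (Fin.tail f) : Fin (d + 2) → V) = f := Fin.cons_self_tail f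
          change (Fin.cons (f 0) (Fin.tail f) : Fin (d + 2) → V) ∘ σ = e
          rw [h1, hσ]
        · exfalso
          apply heO
          have hinj : Function.Injective f := by
            have h1 := hH _ heH
            rw [← hfe] at h1
            have h2 : (Finset.univ.image f).card = (Finset.univ : Finset (Fin (d + 2))).card := by
              rw [h1, Finset.card_univ, Fintype.card_fin]
            have h3 := Finset.card_image_iff.1 h2
            exact fun x y hxy => h3 (Finset.mem_coe.2 (Finset.mem_univ x))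
              (Finset.mem_coe.2 (Finset.mem_univ y)) hxy
          refine ⟨i, List.ofFn f, by rw [toFinset_ofFn, hfe], List.nodup_ofFn.2 hinj,
            List.length_ofFn, by rw [toFinset_ofFn, hfe]; exact heH, ?_, ?_⟩
          · have h1 : (List.ofFn f).take (d + 2 - 1) = List.ofFn (Fin.init f) := by
              have h2 : (Fin.snoc (Fin.init f) (f (Fin.last (d + 1))) : Fin (d + 2) → V) = f :=
                Fin.snoc_init_self f
              have h3 : List.ofFn f = List.ofFn (Fin.init f) ++ [f (Fin.last (d + 1))] := by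
                rw [← H62.ofFn_snoc, h2]
              rw [h3, List.take_append_of_le_length (by rw [List.length_ofFn]; omega),
                List.take_of_length_le (by rw [List.length_ofFn]; omega)]
            rw [h1]
            exact ofFn_mem_tups H hf1 hb1
          · have h1 : (List.ofFn f).drop 1 = List.ofFn (Fin.tail f) := by
              rw [List.ofFn_succ, List.drop_succ_cons, List.drop_zero]
              rfl
            rw [h1]
            exact ofFn_mem_tups H hf2 hb2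
  have h1 := Set.ncard_le_ncard hsub
  have h2 := Set.ncard_union_le A (⋃ i ∈ (Finset.univ : Finset (Fin q)), (B i ∪ C i))
  have h3 := ncard_union_bound (Finset.univ : Finset (Fin q)) (fun i => B i ∪ C i)
  have h6 : Nat.card (Fin (d + 2) → Fin (d + 2)) = (d + 2) ^ (d + 2) := by
    rw [Nat.card_eq_fintype_card, Fintype.card_fun, Fintype.card_fin]
  have h6' : ∀ i, ((Bad H (U i)) ×ˢ (Set.univ : Set V)).ncard =
      (Bad H (U i)).ncard * Fintype.card V := by
    intro i
    rw [Set.ncard_prod, Set.ncard_univ, Nat.card_eq_fintype_card]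
  have h7 : ∀ i, ((Bad H (U i)).ncard : ℝ) * Fintype.card V * ((d : ℝ) + 2) ^ (d + 2) ≤
      b0 * Fintype.card V * ((d : ℝ) + 2) ^ (d + 2) := fun i =>
    mul_le_mul_of_nonneg_right (mul_le_mul_of_nonneg_right (hbad i) (Nat.cast_nonneg _))
      (by positivity)
  have h4 : ∀ i, ((B i ∪ C i).ncard : ℝ) ≤
      2 * (b0 * Fintype.card V * ((d : ℝ) + 2) ^ (d + 2)) := by
    intro i
    have h5 := ncard_img2 ((Bad H (U i)) ×ˢ (Set.univ : Set V))
      (fun p (σ : Fin (d + 2) → Fin (d + 2)) => (Fin.snoc p.1.1 p.2 : Fin (d + 2) → V) ∘ σ)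
    have h5' := ncard_img2 ((Bad H (U i)) ×ˢ (Set.univ : Set V))
      (fun p (σ : Fin (d + 2) → Fin (d + 2)) => (Fin.cons p.2 p.1.1 : Fin (d + 2) → V) ∘ σ)
    rw [h6, h6' i] at h5 h5'
    have h8 : ((B i).ncard : ℝ) ≤
        ((Bad H (U i)).ncard : ℝ) * Fintype.card V * ((d : ℝ) + 2) ^ (d + 2) := by
      exact_mod_cast h5
    have h9 : ((C i).ncard : ℝ) ≤
        ((Bad H (U i)).ncard : ℝ) * Fintype.card V * ((d : ℝ) + 2) ^ (d + 2) := by
      exact_mod_cast h5'
    have h10 : ((B i ∪ C i).ncard : ℝ) ≤ ((B i).ncard : ℝ) + ((C i).ncard : ℝ) := by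
      exact_mod_cast Set.ncard_union_le (B i) (C i)
    have h11 := h7 i
    linarith
  have h8 : ((∑ i : Fin q, (B i ∪ C i).ncard : ℕ) : ℝ) ≤
      q * (2 * (b0 * Fintype.card V * ((d : ℝ) + 2) ^ (d + 2))) := by
    push_cast
    refine le_trans (Finset.sum_le_sum fun i _ => h4 i) ?_
    rw [Finset.sum_const, Finset.card_univ, Fintype.card_fin, nsmul_eq_mul]
  have h9 : ({e : Fin (d + 2) → V | Finset.univ.image e ∈ H ∧
      ¬ OrdIn H (d + 2) (fun i => tups H (U i) ((1 / 2 : ℝ) ^ (d + 3)))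
        (Finset.univ.image e)}.ncard : ℝ) ≤
      (A.ncard : ℝ) + ((∑ i : Fin q, (B i ∪ C i).ncard : ℕ) : ℝ) := by
    exact_mod_cast le_trans h1 (le_trans h2 (Nat.add_le_add_left h3 _))
  linarith

open Classical in
/-- tuples with few good neighbours -/
theorem p3_part (hD : Dirac H (d + 2)) (hV : 0 < Fintype.card V) (T : Fin q → Set (List V))
    {γ e1 : ℝ} (hγ : 0 < γ)
    (hE : ({e : Fin (d + 2) → V | Finset.univ.image e ∈ H ∧
      ¬ OrdIn H (d + 2) T (Finset.univ.image e)}.ncard : ℝ) ≤ e1) :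
    ({f : Fin (d + 1) → V | ((gn H (d + 2) T f).card : ℝ) <
      (1 / 2 - γ) * Fintype.card V}.ncard : ℝ) ≤
      ((d : ℝ) + 1) ^ 2 * (Fintype.card V : ℝ) ^ d + e1 / (γ * Fintype.card V) := by
  have hN : (0 : ℝ) < Fintype.card V := by exact_mod_cast hV
  set E : Set (Fin (d + 2) → V) := {e | Finset.univ.image e ∈ H ∧
      ¬ OrdIn H (d + 2) T (Finset.univ.image e)} with hEdef
  set F : Set (Fin (d + 1) → V) := {f | γ * Fintype.card V ≤
    ({v : V | (Fin.snoc f v : Fin (d + 2) → V) ∈ E}.ncard : ℝ)} with hF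
  have hsub : {f : Fin (d + 1) → V | ((gn H (d + 2) T f).card : ℝ) <
      (1 / 2 - γ) * Fintype.card V} ⊆ {f : Fin (d + 1) → V | ¬ Function.Injective f} ∪ F := by
    intro f hf
    by_cases hinj : Function.Injective f
    · right
      have h1 := dirac_inj H hD f hinj
      have h2 : ((nb H (Finset.univ.image f) : Finset V) : Set V) ⊆
          ((gn H (d + 2) T f : Finset V) : Set V) ∪ {v : V | (Fin.snoc f v : Fin (d + 2) → V) ∈ E} := by
        intro v hv
        have hv' := Finset.mem_coe.1 hv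
        unfold nb at hv'
        rw [Finset.mem_filter] at hv'
        by_cases ho : OrdIn H (d + 2) T (insert v (Finset.univ.image f))
        · left
          rw [Finset.mem_coe]
          unfold gn
          rw [Finset.mem_filter]
          exact ⟨Finset.mem_univ _, ho⟩
        · right
          refine ⟨?_, ?_⟩
          · rw [image_snoc]
            exact hv'.2.2
          · rw [image_snoc]
            exact ho
      have h3 := Set.ncard_le_ncard h2
      have h4 := Set.ncard_union_le ((gn H (d + 2) T f : Finset V) : Set V)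
        {v : V | (Fin.snoc f v : Fin (d + 2) → V) ∈ E}
      rw [Set.ncard_coe_finset] at h3 h4
      have h5 : ((nb H (Finset.univ.image f)).card : ℝ) ≤ ((gn H (d + 2) T f).card : ℝ) +
          ({v : V | (Fin.snoc f v : Fin (d + 2) → V) ∈ E}.ncard : ℝ) := by
        exact_mod_cast le_trans h3 h4
      have h6 : ((gn H (d + 2) T f).card : ℝ) < (1 / 2 - γ) * Fintype.card V := hf
      change γ * Fintype.card V ≤ ({v : V | (Fin.snoc f v : Fin (d + 2) → V) ∈ E}.ncard : ℝ)
      have h7 : (1 / 2 - γ) * (Fintype.card V : ℝ) = (Fintype.card V : ℝ) / 2 -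
        γ * Fintype.card V := by ring
      rw [h7] at h6
      linarith
    · exact Or.inl hinj
  -- the set F
  have hFle : (F.ncard : ℝ) * (γ * Fintype.card V) ≤ (E.ncard : ℝ) := by
    have h1 : {p : (Fin (d + 1) → V) × V | (Fin.snoc p.1 p.2 : Fin (d + 2) → V) ∈ E}.ncard ≤
        E.ncard := by
      refine Set.ncard_le_ncard_of_injOn (fun p => (Fin.snoc p.1 p.2 : Fin (d + 2) → V))
        (fun p hp => hp) ?_
      intro p _ p' _ h
      have h2 := congrArg Fin.init h
      have h3 := congrFun h (Fin.last (d + 1))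
      simp only [Fin.init_snoc, Fin.snoc_last] at h2 h3
      exact Prod.ext h2 h3
    have h4 : ({p : (Fin (d + 1) → V) × V | (Fin.snoc p.1 p.2 : Fin (d + 2) → V) ∈ E}.ncard : ℝ) =
        ∑ f : Fin (d + 1) → V, ({v : V | (Fin.snoc f v : Fin (d + 2) → V) ∈ E}.ncard : ℝ) := by
      rw [ncard_fib]
      push_cast
      rfl
    have h5 : (F.ncard : ℝ) = ∑ f : Fin (d + 1) → V, (if f ∈ F then (1 : ℝ) else 0) :=
      (card_filter_real (fun f => f ∈ F)).symm
    have h6 : (F.ncard : ℝ) * (γ * Fintype.card V) ≤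
        ∑ f : Fin (d + 1) → V, ({v : V | (Fin.snoc f v : Fin (d + 2) → V) ∈ E}.ncard : ℝ) := by
      rw [h5, Finset.sum_mul]
      refine Finset.sum_le_sum fun f _ => ?_
      by_cases hf : f ∈ F
      · rw [if_pos hf, one_mul]
        exact hf
      · rw [if_neg hf, zero_mul]
        exact Nat.cast_nonneg _
    have h7 : ({p : (Fin (d + 1) → V) × V | (Fin.snoc p.1 p.2 : Fin (d + 2) → V) ∈ E}.ncard : ℝ) ≤
        (E.ncard : ℝ) := by exact_mod_cast h1
    rw [← h4] at h6
    exact le_trans h6 h7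
  have h8 : (F.ncard : ℝ) ≤ e1 / (γ * Fintype.card V) := by
    rw [le_div_iff₀ (by positivity)]
    exact le_trans hFle hE
  have h9 := ninj_tuples (V := V) d
  have h10 : ({f : Fin (d + 1) → V | ((gn H (d + 2) T f).card : ℝ) <
      (1 / 2 - γ) * Fintype.card V}.ncard : ℝ) ≤
      ({f : Fin (d + 1) → V | ¬ Function.Injective f}.ncard : ℝ) + (F.ncard : ℝ) := by
    exact_mod_cast le_trans (Set.ncard_le_ncard hsub) (Set.ncard_union_le _ _)
  linarith

/-- many tuples -/
theorem size_part (U : Set (Sta V d)) {b0 u1 : ℝ} (hbad : ((Bad H U).ncard : ℝ) ≤ b0)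
    (hU : u1 ≤ (U.ncard : ℝ)) :
    u1 - b0 ≤ ((d : ℝ) + 2) * ({f : Fin (d + 1) → V |
      List.ofFn f ∈ tups H U ((1 / 2 : ℝ) ^ (d + 3))}.ncard : ℝ) := by
  set S : Set (Fin (d + 1) → V) := {f | List.ofFn f ∈ tups H U ((1 / 2 : ℝ) ^ (d + 3))} with hS
  have hsub : U ⊆ Bad H U ∪ (S ×ˢ (Set.univ : Set (ZMod (d + 2)))) := by
    intro s hs
    by_cases hb : s ∈ Bad H U
    · exact Or.inl hb
    · exact Or.inr ⟨ofFn_mem_tups H hs hb, Set.mem_univ _⟩
  have h1 := le_trans (Set.ncard_le_ncard hsub) (Set.ncard_union_le _ _)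
  rw [Set.ncard_prod, Set.ncard_univ, Nat.card_eq_fintype_card, ZMod.card] at h1
  have h2 : (U.ncard : ℝ) ≤ ((Bad H U).ncard : ℝ) + (S.ncard : ℝ) * ((d : ℝ) + 2) := by
    exact_mod_cast h1
  linarith

theorem wk_shift (m : ℕ) (a b : Fin (d + 1) → V) (t t' δ : ZMod (d + 2)) :
    wk (St H) m (a, t + δ) (b, t' + δ) = wk (St H) m (a, t) (b, t') := by
  rw [H62.wk_eq, H62.wk_eq]
  congr 1
  ext x
  simp only [Set.mem_ofPred_eq]
  have h : t' + δ = t + δ + (m : ZMod (d + 2)) ↔ t' = t + (m : ZMod (d + 2)) := by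
    constructor
    · intro h
      have h1 : t' + δ = (t + m) + δ := by rw [h]; ring
      exact add_right_cancel h1
    · intro h
      rw [h]
      ring
  rw [h]

/-- goodness does not depend on the time if the class is invariant under time shifts -/
theorem good_shift {U : Set (Sta V d)}
    (hU : ∀ (f : Fin (d + 1) → V) (t t' : ZMod (d + 2)), (f, t) ∈ U → (f, t') ∈ U) {c : ℝ}
    (f : Fin (d + 1) → V) (t t' : ZMod (d + 2)) :
    (GoodF H U c (f, t) → GoodF H U c (f, t')) ∧ (GoodB H U c (f, t) → GoodB H U c (f, t')) := by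
  let e : Sta V d ≃ Sta V d := Equiv.prodCongr (Equiv.refl _) (Equiv.addRight (t' - t))
  have he : ∀ z : Sta V d, e z = (z.1, z.2 + (t' - t)) := fun z => rfl
  have hmem : ∀ z : Sta V d, (e z ∈ U) = (z ∈ U) := by
    intro z
    apply propext
    rw [he]
    exact ⟨fun h => hU _ _ _ h, fun h => hU _ _ _ h⟩
  have ht : t' = t + (t' - t) := by ring
  constructor
  · intro h
    unfold GoodF at h ⊢
    have h1 : ∑ᶠ z ∈ U, (wk (St H) (d + 1) (f, t') z : ℝ) =
        ∑ᶠ z ∈ U, (wk (St H) (d + 1) (f, t) z : ℝ) := by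
      rw [← finsum_comp_equiv e]
      refine finsum_congr fun z => ?_
      have h2 : wk (St H) (d + 1) (f, t') (e z) = wk (St H) (d + 1) (f, t) z := by
        rw [he]
        have h3 := wk_shift H (d + 1) f z.1 t z.2 (t' - t)
        rw [← ht] at h3
        exact h3
      rw [h2, hmem]
    rw [h1]
    exact h
  · intro h
    unfold GoodB at h ⊢
    have h1 : ∑ᶠ z ∈ U, (wk (St H) (d + 1) z (f, t') : ℝ) =
        ∑ᶠ z ∈ U, (wk (St H) (d + 1) z (f, t) : ℝ) := by
      rw [← finsum_comp_equiv e]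
      refine finsum_congr fun z => ?_
      have h2 : wk (St H) (d + 1) (e z) (f, t') = wk (St H) (d + 1) z (f, t) := by
        rw [he]
        have h3 := wk_shift H (d + 1) z.1 f z.2 t (t' - t)
        rw [← ht] at h3
        exact h3
      rw [h2, hmem]
    rw [h1]
    exact h

end asm

end Pool.Agent.KK.H16
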