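import Pool.Agent.Helper16_KK.Abs

/-!
# KK row TCL, part 2: degrees of the states, few bad states
-/

set_option autoImplicit false
set_option linter.unusedSectionVars false

open scoped BigOperators

namespace Pool.Agent.KK.H16

section st

variable {V : Type} [Fintype V] [DecidableEq V] (H : Finset (Finset V)) {d : ℕ}

theorem out_le (s : Sta V d) : ({z | St H s z}.ncard : ℝ) ≤ Fintype.card V := by
  have h : {z | St H s z}.ncard ≤ (Set.univ : Set V).ncard := by
    refine Set.ncard_le_ncard_of_injOn (fun z => z.1 (Fin.last d)) (fun _ _ => Set.mem_univ _) ?_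
    rintro z ⟨h1, h2, -⟩ z' ⟨h1', h2', -⟩ h
    have h' : z.1 (Fin.last d) = z'.1 (Fin.last d) := h
    have e1 : z.1 = z'.1 := by
      have q1 : (Fin.snoc (Fin.init z.1) (z.1 (Fin.last d)) : Fin (d + 1) → V) = z.1 :=
        Fin.snoc_init_self z.1
      have q2 : (Fin.snoc (Fin.init z'.1) (z'.1 (Fin.last d)) : Fin (d + 1) → V) = z'.1 :=
        Fin.snoc_init_self z'.1
      rw [← q1, ← q2, h2, h2', h']
    exact Prod.ext e1 (by rw [h1, h1'])
  rw [Set.ncard_univ, Nat.card_eq_fintype_card] at h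
  exact_mod_cast h

theorem in_le (t : Sta V d) : ({z | St H z t}.ncard : ℝ) ≤ Fintype.card V := by
  have h : {z | St H z t}.ncard ≤ (Set.univ : Set V).ncard := by
    refine Set.ncard_le_ncard_of_injOn (fun z => z.1 0) (fun _ _ => Set.mem_univ _) ?_
    rintro z ⟨h1, h2, -⟩ z' ⟨h1', h2', -⟩ h
    have h' : z.1 0 = z'.1 0 := h
    have e1 : z.1 = z'.1 := by
      have q1 : (Fin.cons (z.1 0) (Fin.tail z.1) : Fin (d + 1) → V) = z.1 :=
        Fin.cons_self_tail z.1
      have q2 : (Fin.cons (z'.1 0) (Fin.tail z'.1) : Fin (d + 1) → V) = z'.1 :=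
        Fin.cons_self_tail z'.1
      rw [← q1, ← q2, ← h2, ← h2', h']
    exact Prod.ext e1 (add_right_cancel (h1.symm.trans h1'))
  rw [Set.ncard_univ, Nat.card_eq_fintype_card] at h
  exact_mod_cast h

theorem image_snoc {m : ℕ} (g : Fin m → V) (v : V) :
    Finset.univ.image (Fin.snoc g v : Fin (m + 1) → V) = insert v (Finset.univ.image g) := by
  ext x
  simp only [Finset.mem_image, Finset.mem_univ, true_and, Finset.mem_insert]
  constructor
  · rintro ⟨i, rfl⟩
    refine Fin.lastCases ?_ (fun j => ?_) i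
    · left
      rw [Fin.snoc_last]
    · right
      exact ⟨j, by rw [Fin.snoc_castSucc]⟩
  · rintro (rfl | ⟨j, rfl⟩)
    · exact ⟨Fin.last m, Fin.snoc_last _ _⟩
    · exact ⟨j.castSucc, Fin.snoc_castSucc _ _ _⟩

theorem image_cons {m : ℕ} (g : Fin m → V) (v : V) :
    Finset.univ.image (Fin.cons v g : Fin (m + 1) → V) = insert v (Finset.univ.image g) := by
  ext x
  simp only [Finset.mem_image, Finset.mem_univ, true_and, Finset.mem_insert]
  constructor
  · rintro ⟨i, rfl⟩
    refine Fin.cases ?_ (fun j => ?_) i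
    · left
      rw [Fin.cons_zero]
    · right
      exact ⟨j, by rw [Fin.cons_succ]⟩
  · rintro (rfl | ⟨j, rfl⟩)
    · exact ⟨0, Fin.cons_zero _ _⟩
    · exact ⟨j.succ, Fin.cons_succ _ _ _⟩

theorem dirac_inj (hD : Dirac H (d + 2)) (f : Fin (d + 1) → V) (hf : Function.Injective f) :
    (Fintype.card V : ℝ) / 2 ≤ ((nb H (Finset.univ.image f)).card : ℝ) := by
  have h1 : (Finset.univ.image f).card = d + 2 - 1 := by
    rw [Finset.card_image_of_injective _ hf, Finset.card_univ, Fintype.card_fin]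
    rfl
  have h2 := hD _ h1
  have h3 : (Fintype.card V : ℝ) ≤ 2 * ((nb H (Finset.univ.image f)).card : ℝ) := by
    exact_mod_cast h2
  linarith

theorem out_ge (hD : Dirac H (d + 2)) (s : Sta V d) (hs : Function.Injective s.1) :
    (Fintype.card V : ℝ) / 2 ≤
      ({z : Sta V d | z ∈ {z : Sta V d | Function.Injective z.1} ∧ St H s z}.ncard : ℝ) := by
  refine le_trans (dirac_inj H hD s.1 hs) ?_
  have h : (nb H (Finset.univ.image s.1)).card ≤
      {z : Sta V d | z ∈ {z : Sta V d | Function.Injective z.1} ∧ St H s z}.ncard := by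
    rw [← Set.ncard_coe_finset]
    refine Set.ncard_le_ncard_of_injOn
      (fun v => ((Fin.snoc (Fin.tail s.1) v : Fin (d + 1) → V), s.2 + 1)) ?_ ?_
    · intro v hv
      have hv' := Finset.mem_coe.1 hv
      unfold nb at hv'
      rw [Finset.mem_filter] at hv'
      obtain ⟨-, hv1, hv2⟩ := hv'
      refine ⟨?_, rfl, Fin.init_snoc _ _, ?_⟩
      · change Function.Injective (Fin.snoc (Fin.tail s.1) v : Fin (d + 1) → V)
        rw [Fin.snoc_injective_iff]
        refine ⟨fun i j hij => Fin.succ_injective _ (hs hij), ?_⟩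
        rintro ⟨i, hi⟩
        exact hv1 (Finset.mem_image.2 ⟨i.succ, Finset.mem_univ _, hi⟩)
      · change insert ((Fin.snoc (Fin.tail s.1) v : Fin (d + 1) → V) (Fin.last d))
          (Finset.univ.image s.1) ∈ H
        rw [Fin.snoc_last]
        exact hv2
    · intro v _ w _ h
      have h1 := congrArg (fun z : Sta V d => z.1 (Fin.last d)) h
      simpa using h1
  exact_mod_cast h

theorem in_ge (hD : Dirac H (d + 2)) (s : Sta V d) (hs : Function.Injective s.1) :
    (Fintype.card V : ℝ) / 2 ≤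
      ({z : Sta V d | z ∈ {z : Sta V d | Function.Injective z.1} ∧ St H z s}.ncard : ℝ) := by
  refine le_trans (dirac_inj H hD s.1 hs) ?_
  have hins : ∀ u : V, insert (s.1 (Fin.last d))
      (Finset.univ.image (Fin.cons u (Fin.init s.1) : Fin (d + 1) → V)) =
      insert u (Finset.univ.image s.1) := by
    intro u
    rw [image_cons, Finset.insert_comm, ← image_snoc, Fin.snoc_init_self]
  have h : (nb H (Finset.univ.image s.1)).card ≤
      {z : Sta V d | z ∈ {z : Sta V d | Function.Injective z.1} ∧ St H z s}.ncard := by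
    rw [← Set.ncard_coe_finset]
    refine Set.ncard_le_ncard_of_injOn
      (fun v => ((Fin.cons v (Fin.init s.1) : Fin (d + 1) → V), s.2 - 1)) ?_ ?_
    · intro v hv
      have hv' := Finset.mem_coe.1 hv
      unfold nb at hv'
      rw [Finset.mem_filter] at hv'
      obtain ⟨-, hv1, hv2⟩ := hv'
      refine ⟨?_, (sub_add_cancel _ _).symm,
        (Fin.tail_cons (α := fun _ => V) v (Fin.init s.1)).symm, ?_⟩
      · change Function.Injective (Fin.cons v (Fin.init s.1) : Fin (d + 1) → V)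
        rw [Fin.cons_injective_iff]
        refine ⟨?_, fun i j hij => Fin.castSucc_injective _ (hs hij)⟩
        rintro ⟨i, hi⟩
        exact hv1 (Finset.mem_image.2 ⟨i.castSucc, Finset.mem_univ _, hi⟩)
      · change insert (s.1 (Fin.last d))
          (Finset.univ.image (Fin.cons v (Fin.init s.1) : Fin (d + 1) → V)) ∈ H
        rw [hins]
        exact hv2
    · intro v _ w _ h
      have h1 := congrArg (fun z : Sta V d => z.1 0) h
      simpa using h1
  exact_mod_cast h

/-- number of tuples with a repetition -/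
theorem ninj_tuples (m : ℕ) :
    ({f : Fin (m + 1) → V | ¬ Function.Injective f}.ncard : ℝ) ≤
      ((m : ℝ) + 1) ^ 2 * (Fintype.card V : ℝ) ^ m := by
  have h := ninj (ι := Fin (m + 1)) (V := V) ∅
  have h1 : {f : Fin (m + 1) → V | ¬ Function.Injective f} =
      {f : Fin (m + 1) → V | ¬ (Function.Injective f ∧ ∀ i, f i ∉ (∅ : Finset V))} := by
    ext f
    simp
  rw [h1]
  simp only [Finset.card_empty, mul_zero, add_zero, Fintype.card_fin, Nat.add_sub_cancel] at h
  have h2 : (({f : Fin (m + 1) → V |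
      ¬ (Function.Injective f ∧ ∀ i, f i ∉ (∅ : Finset V))}.ncard : ℕ) : ℝ) ≤
      (((m + 1) ^ 2 * Fintype.card V ^ m : ℕ) : ℝ) := by
    exact_mod_cast h
  push_cast at h2
  exact h2

/-- number of states whose tuple has a repetition -/
theorem ninj_states :
    ({s : Sta V d | ¬ Function.Injective s.1}.ncard : ℝ) ≤
      ((d : ℝ) + 2) * (((d : ℝ) + 1) ^ 2 * (Fintype.card V : ℝ) ^ d) := by
  have h1 : {s : Sta V d | ¬ Function.Injective s.1}.ncard =
      ∑ _t : ZMod (d + 2), {f : Fin (d + 1) → V | ¬ Function.Injective f}.ncard := by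
    rw [ncard_fib']
    rfl
  rw [h1, Finset.sum_const, Finset.card_univ, ZMod.card, nsmul_eq_mul]
  push_cast
  exact mul_le_mul_of_nonneg_left (ninj_tuples d) (by positivity)

/-- the bad states of `U` -/
def Bad (U : Set (Sta V d)) : Set (Sta V d) :=
  {s | s ∈ U ∧ List.ofFn s.1 ∉ tups H U ((1 / 2 : ℝ) ^ (d + 3))}

theorem bad_le (hD : Dirac H (d + 2)) (U : Set (Sta V d)) {ε' : ℝ} (hU : Closed H U ε')
    (hV : 0 < Fintype.card V) :
    ((Bad H U).ncard : ℝ) ≤
      ((d : ℝ) + 2) * (((d : ℝ) + 1) ^ 2 * (Fintype.card V : ℝ) ^ d) +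
      2 * (((d : ℝ) + 1) * 2 ^ (d + 2) * ε' * (Fintype.card V : ℝ) ^ (d + 1)) := by
  have hN : (0 : ℝ) < Fintype.card V := by exact_mod_cast hV
  set I : Set (Sta V d) := {z : Sta V d | Function.Injective z.1} with hI
  set B1 : Set (Sta V d) := {s | s ∈ U ∧ s ∈ I ∧
    ¬ (1 / 2 : ℝ) ^ (d + 3) * (Fintype.card V : ℝ) ^ (d + 1) ≤
      ∑ᶠ z ∈ U, (wk (St H) (d + 1) s z : ℝ)} with hB1
  set B2 : Set (Sta V d) := {s | s ∈ U ∧ s ∈ I ∧
    ¬ (1 / 2 : ℝ) ^ (d + 3) * (Fintype.card V : ℝ) ^ (d + 1) ≤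
      ∑ᶠ z ∈ U, (wk (fun x y => St H y x) (d + 1) s z : ℝ)} with hB2
  have h1 : (B1.ncard : ℝ) ≤ ((d : ℝ) + 1) * 2 ^ (d + 2) * ε' * (Fintype.card V : ℝ) ^ (d + 1) :=
    few_bad (St H) hN U I d (in_le H) (out_le H) (fun s hs => out_ge H hD s hs) hU.1
  have h2 : (B2.ncard : ℝ) ≤ ((d : ℝ) + 1) * 2 ^ (d + 2) * ε' * (Fintype.card V : ℝ) ^ (d + 1) := by
    refine few_bad (fun x y => St H y x) hN U I d (out_le H) (in_le H)
      (fun s hs => in_ge H hD s hs) ?_
    have h3 : {p : Sta V d × Sta V d | p.1 ∈ U ∧ p.2 ∉ U ∧ St H p.2 p.1}.ncard =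
        {p : Sta V d × Sta V d | p.1 ∉ U ∧ p.2 ∈ U ∧ St H p.1 p.2}.ncard :=
      ncard_equiv (Equiv.prodComm _ _) _ _ (fun x => ⟨fun h => ⟨h.2.1, h.1, h.2.2⟩,
        fun h => ⟨h.2.1, h.1, h.2.2⟩⟩)
    rw [h3]
    exact hU.2
  have hsub : Bad H U ⊆ {s : Sta V d | ¬ Function.Injective s.1} ∪ (B1 ∪ B2) := by
    rintro s ⟨hsU, hs⟩
    by_cases hinj : Function.Injective s.1
    · right
      by_contra hcon
      apply hs
      refine ⟨s.1, s.2, rfl, hinj, ?_, ?_⟩
      · by_contra h
        exact hcon (Or.inl ⟨hsU, hinj, h⟩)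
      · by_contra h
        refine hcon (Or.inr ⟨hsU, hinj, fun h' => h ?_⟩)
        unfold GoodB
        have e1 : ∑ᶠ z ∈ U, (wk (fun x y => St H y x) (d + 1) s z : ℝ) =
            ∑ᶠ z ∈ U, (wk (St H) (d + 1) z (s.1, s.2) : ℝ) := by
          refine finsum_congr fun z => ?_
          rw [wk_rev]
        rw [← e1]
        exact h'
    · exact Or.inl hinj
  have h4 : ((Bad H U).ncard : ℝ) ≤
      ({s : Sta V d | ¬ Function.Injective s.1}.ncard : ℝ) + ((B1.ncard : ℝ) + B2.ncard) := by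
    have h5 := Set.ncard_le_ncard hsub
    have h6 := Set.ncard_union_le {s : Sta V d | ¬ Function.Injective s.1} (B1 ∪ B2)
    have h7 := Set.ncard_union_le B1 B2
    have h8 : (Bad H U).ncard ≤
      {s : Sta V d | ¬ Function.Injective s.1}.ncard + (B1.ncard + B2.ncard) := by omega
    exact_mod_cast h8
  have h9 := ninj_states (V := V) (d := d)
  linarith

end st

end Pool.Agent.KK.H16
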