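import Pool.Agent.Helper16_KK.Asm

/-!
# KK row TCL: from states to classes of tuples
-/

set_option autoImplicit false
set_option linter.unusedSectionVars false

open scoped BigOperators

namespace Pool.Agent.KK.H16

theorem consts (d q : ℕ) (u₀ γ : ℝ) (hq : 0 < q) (hu : 0 < u₀) (hγ : 0 < γ) :
    ∃ γ' ε' : ℝ, 0 < γ' ∧ 0 < ε' ∧ γ' ≤ γ ∧ γ' ≤ u₀ / 2 ∧
      (q : ℝ) * (γ' * ((d : ℝ) + 1) ^ (d + 1)) ≤ γ / 2 ∧
      (q : ℝ) * (2 * (γ' * ((d : ℝ) + 2) ^ (d + 2))) ≤ γ ^ 2 / 4 ∧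
      2 * (((d : ℝ) + 1) * 2 ^ (d + 2) * ε') ≤ γ' / 2 ∧ ε' ≤ γ / 2 ∧ ε' ≤ γ ^ 2 / 4 := by
  have hq' : (0 : ℝ) < q := by exact_mod_cast hq
  have hA : (0 : ℝ) < q * ((d : ℝ) + 1) ^ (d + 1) := by positivity
  have hB : (0 : ℝ) < q * (2 * ((d : ℝ) + 2) ^ (d + 2)) := by positivity
  have hC : (0 : ℝ) < 2 * (((d : ℝ) + 1) * 2 ^ (d + 2)) := by positivity
  set γ' : ℝ := min (min γ (u₀ / 2)) (min (γ / 2 / (q * ((d : ℝ) + 1) ^ (d + 1)))
    (γ ^ 2 / 4 / (q * (2 * ((d : ℝ) + 2) ^ (d + 2))))) with hγ'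
  have hpos : 0 < γ' := by
    rw [hγ']
    refine lt_min (lt_min hγ (by positivity)) (lt_min (by positivity) (by positivity))
  set ε' : ℝ := min (γ' / 2 / (2 * (((d : ℝ) + 1) * 2 ^ (d + 2)))) (min (γ / 2) (γ ^ 2 / 4))
    with hε'
  have hposε : 0 < ε' := by
    rw [hε']
    exact lt_min (by positivity) (lt_min (by positivity) (by positivity))
  refine ⟨γ', ε', hpos, hposε, le_trans (min_le_left _ _) (min_le_left _ _),
    le_trans (min_le_left _ _) (min_le_right _ _), ?_, ?_, ?_,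
    le_trans (min_le_right _ _) (min_le_left _ _),
    le_trans (min_le_right _ _) (min_le_right _ _)⟩
  · have h : γ' ≤ γ / 2 / (q * ((d : ℝ) + 1) ^ (d + 1)) :=
      le_trans (min_le_right _ _) (min_le_left _ _)
    rw [le_div_iff₀ hA] at h
    calc (q : ℝ) * (γ' * ((d : ℝ) + 1) ^ (d + 1)) = γ' * (q * ((d : ℝ) + 1) ^ (d + 1)) := by ring
      _ ≤ γ / 2 := h
  · have h : γ' ≤ γ ^ 2 / 4 / (q * (2 * ((d : ℝ) + 2) ^ (d + 2))) :=
      le_trans (min_le_right _ _) (min_le_right _ _)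
    rw [le_div_iff₀ hB] at h
    calc (q : ℝ) * (2 * (γ' * ((d : ℝ) + 2) ^ (d + 2))) =
        γ' * (q * (2 * ((d : ℝ) + 2) ^ (d + 2))) := by ring
      _ ≤ γ ^ 2 / 4 := h
  · have h : ε' ≤ γ' / 2 / (2 * (((d : ℝ) + 1) * 2 ^ (d + 2))) := min_le_left _ _
    rw [le_div_iff₀ hC] at h
    calc 2 * (((d : ℝ) + 1) * 2 ^ (d + 2) * ε') = ε' * (2 * (((d : ℝ) + 1) * 2 ^ (d + 2))) := by
          ring
      _ ≤ γ' / 2 := h

theorem disj_of_list {V : Type} {m m' : ℕ} (f : Fin m → V) (g : Fin m' → V)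
    (h : (List.ofFn f).Disjoint (List.ofFn g)) : Disjoint (Set.range f) (Set.range g) := by
  rw [Set.disjoint_left]
  rintro x ⟨i, rfl⟩ ⟨j, hj⟩
  exact h (List.mem_ofFn.2 ⟨i, rfl⟩) (List.mem_ofFn.2 ⟨j, hj⟩)

theorem tcl (hJ : JonStmt) : TclStmt := by
  intro d q u₀ β ε hd hq hβ hε hu hβ2
  obtain ⟨M, cJ, nJ, hcJ, hJON⟩ := hJ d ε β ((1 / 2 : ℝ) ^ (d + 3)) u₀ hε hβ hβ2 hu
  have hu0 : 0 < u₀ := by linarith
  refine ⟨M, min cJ (u₀ / (2 * ((d : ℝ) + 2))), lt_min hcJ (by positivity), ?_⟩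
  intro γ hγ
  obtain ⟨γ', ε', hγ', hε', h1, h2, h3, h4, h5, h6, h7⟩ := consts d q u₀ γ hq hu0 hγ
  obtain ⟨na, hna⟩ := exists_nat_ge (((d : ℝ) + 2) * ((d : ℝ) + 1) ^ 2 / (γ' / 2))
  obtain ⟨nb', hnb⟩ := exists_nat_ge (((d : ℝ) + 1) ^ 2 / (γ / 2))
  refine ⟨ε', max (max nJ 1) (max na nb'), hε', ?_⟩
  intro V _ _ H U i₀ hn hUni hD hsize hInd hCl hshift hA hE
  have hn1 : nJ ≤ Fintype.card V := le_trans (le_trans (le_max_left _ _) (le_max_left _ _)) hn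
  have hn2 : 0 < Fintype.card V := le_trans (le_trans (le_max_right _ _) (le_max_left _ _)) hn
  have hn3 : na ≤ Fintype.card V := le_trans (le_trans (le_max_left _ _) (le_max_right _ _)) hn
  have hn4 : nb' ≤ Fintype.card V := le_trans (le_trans (le_max_right _ _) (le_max_right _ _)) hn
  have hN : (0 : ℝ) < Fintype.card V := by exact_mod_cast hn2
  have hN3 : ((d : ℝ) + 2) * ((d : ℝ) + 1) ^ 2 ≤ γ' / 2 * (Fintype.card V : ℝ) := by
    have h : ((d : ℝ) + 2) * ((d : ℝ) + 1) ^ 2 / (γ' / 2) ≤ (Fintype.card V : ℝ) :=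
      le_trans hna (by exact_mod_cast hn3)
    rw [div_le_iff₀ (by positivity)] at h
    linarith
  have hN4 : ((d : ℝ) + 1) ^ 2 ≤ γ / 2 * (Fintype.card V : ℝ) := by
    have h : ((d : ℝ) + 1) ^ 2 / (γ / 2) ≤ (Fintype.card V : ℝ) :=
      le_trans hnb (by exact_mod_cast hn4)
    rw [div_le_iff₀ (by positivity)] at h
    linarith
  set N : ℝ := (Fintype.card V : ℝ) with hNdef
  -- the bad states
  have hbad : ∀ i, ((Bad H (U i)).ncard : ℝ) ≤ γ' * N ^ (d + 1) := by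
    intro i
    have h := bad_le H hD (U i) (hCl i) hn2
    have e1 : ((d : ℝ) + 2) * (((d : ℝ) + 1) ^ 2 * N ^ d) ≤ γ' / 2 * N ^ (d + 1) := by
      calc ((d : ℝ) + 2) * (((d : ℝ) + 1) ^ 2 * N ^ d) =
          (((d : ℝ) + 2) * ((d : ℝ) + 1) ^ 2) * N ^ d := by ring
        _ ≤ (γ' / 2 * N) * N ^ d := mul_le_mul_of_nonneg_right hN3 (by positivity)
        _ = γ' / 2 * N ^ (d + 1) := by ring
    have e2 : 2 * (((d : ℝ) + 1) * 2 ^ (d + 2) * ε' * N ^ (d + 1)) ≤ γ' / 2 * N ^ (d + 1) := by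
      calc 2 * (((d : ℝ) + 1) * 2 ^ (d + 2) * ε' * N ^ (d + 1)) =
          (2 * (((d : ℝ) + 1) * 2 ^ (d + 2) * ε')) * N ^ (d + 1) := by ring
        _ ≤ γ' / 2 * N ^ (d + 1) := mul_le_mul_of_nonneg_right h5 (by positivity)
    rw [← hNdef] at h
    linarith
  have hJoin : ∀ (i : Fin q) (a b : Fin (d + 1) → V) (t t' : ZMod (d + 2)), Function.Injective a →
        Function.Injective b → Disjoint (Set.range a) (Set.range b) →
        GoodF H (U i) ((1 / 2 : ℝ) ^ (d + 3)) (a, t) →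
        GoodB H (U i) ((1 / 2 : ℝ) ^ (d + 3)) (b, t') →
        ∃ m ≤ M, t' = t + m + (d + 1) ∧
          min cJ (u₀ / (2 * ((d : ℝ) + 2))) * N ^ m ≤
            con H (d + 2) m (List.ofFn a) (List.ofFn b) := by
    intro i a b t t' ha hb hab hF hB
    obtain ⟨m, hm, ht, hc⟩ := hJON V H hn1 hUni (U i) (hsize i) (hInd i) a b t t' ha hb hab hF hB
    refine ⟨m, hm, ht, le_trans ?_ hc⟩
    exact mul_le_mul_of_nonneg_right (min_le_left _ _) (by positivity)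
  refine ⟨?_, ?_, ?_, ?_, ?_, ?_, ?_⟩
  · -- Tup
    rintro i a ⟨f, t, rfl, hf, -, -⟩
    exact ⟨List.length_ofFn, List.nodup_ofFn.2 hf⟩
  · -- Joins
    rintro i a ⟨f, t, rfl, hf, hfF, -⟩ b ⟨g, t', rfl, hg, -, hgB⟩ hab
    obtain ⟨m, hm, -, hc⟩ := hJoin i f g t t' hf hg (disj_of_list f g hab) hfF hgB
    exact ⟨m, hm, hc⟩
  · -- JoinsAll
    rintro a ⟨f, t, rfl, hf, hfF, -⟩ b ⟨g, t', rfl, hg, -, hgB⟩ hab s
    have hF0 := (good_shift H hshift (c := (1 / 2 : ℝ) ^ (d + 3)) f t 0).1 hfF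
    have hB0 := (good_shift H hshift (c := (1 / 2 : ℝ) ^ (d + 3)) g t'
      ((s : ZMod (d + 2)) + (d + 1))).2 hgB
    obtain ⟨m, hm, ht, hc⟩ := hJoin i₀ f g 0 ((s : ZMod (d + 2)) + (d + 1)) hf hg
      (disj_of_list f g hab) hF0 hB0
    refine ⟨m, hm, ?_, hc⟩
    rw [zero_add] at ht
    have ht' : ((m : ℕ) : ZMod (d + 2)) = ((s : ℕ) : ZMod (d + 2)) := (add_right_cancel ht).symm
    exact (ZMod.natCast_eq_natCast_iff _ _ _).1 ht'
  · -- size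
    intro i
    have h := size_part H (U i) (hbad i) (hsize i)
    have hge : u₀ / 2 * N ^ (d + 1) ≤ u₀ * N ^ (d + 1) - γ' * N ^ (d + 1) := by
      have h8 : γ' * N ^ (d + 1) ≤ u₀ / 2 * N ^ (d + 1) :=
        mul_le_mul_of_nonneg_right h2 (by positivity)
      linarith
    have h9 : u₀ / 2 * N ^ (d + 1) ≤ ((d : ℝ) + 2) * ({f : Fin (d + 1) → V |
      List.ofFn f ∈ tups H (U i) ((1 / 2 : ℝ) ^ (d + 3))}.ncard : ℝ) := by
      exact le_trans hge h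
    have h10 : min cJ (u₀ / (2 * ((d : ℝ) + 2))) * N ^ (d + 1) ≤
        u₀ / (2 * ((d : ℝ) + 2)) * N ^ (d + 1) :=
      mul_le_mul_of_nonneg_right (min_le_right _ _) (by positivity)
    refine le_trans h10 ?_
    have h11 : u₀ / (2 * ((d : ℝ) + 2)) * N ^ (d + 1) =
        (u₀ / 2 * N ^ (d + 1)) / ((d : ℝ) + 2) := by
      field_simp
    rw [h11, div_le_iff₀ (by positivity)]
    linarith
  · -- P2
    have h := p2_part H U hbad hA
    have h8 : ε' * N ^ (d + 1) + q * (γ' * N ^ (d + 1) * ((d : ℝ) + 1) ^ (d + 1)) ≤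
        γ * N ^ (d + 1) := by
      calc ε' * N ^ (d + 1) + q * (γ' * N ^ (d + 1) * ((d : ℝ) + 1) ^ (d + 1)) =
          (ε' + q * (γ' * ((d : ℝ) + 1) ^ (d + 1))) * N ^ (d + 1) := by ring
        _ ≤ γ * N ^ (d + 1) := mul_le_mul_of_nonneg_right (by linarith) (by positivity)
    exact le_trans h h8
  · -- P3
    have h := e1_part H hUni U hbad hE
    have h8 : ε' * N ^ (d + 2) + q * (2 * (γ' * N ^ (d + 1) * N * ((d : ℝ) + 2) ^ (d + 2))) ≤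
        γ ^ 2 / 2 * N ^ (d + 2) := by
      calc ε' * N ^ (d + 2) + q * (2 * (γ' * N ^ (d + 1) * N * ((d : ℝ) + 2) ^ (d + 2))) =
          (ε' + q * (2 * (γ' * ((d : ℝ) + 2) ^ (d + 2)))) * N ^ (d + 2) := by ring
        _ ≤ γ ^ 2 / 2 * N ^ (d + 2) := mul_le_mul_of_nonneg_right (by linarith) (by positivity)
    have h9 := p3_part H hD hn2 (fun i => tups H (U i) ((1 / 2 : ℝ) ^ (d + 3))) hγ
      (le_trans h h8)
    have h10 : γ ^ 2 / 2 * N ^ (d + 2) / (γ * N) = γ / 2 * N ^ (d + 1) := by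
      rw [div_eq_iff (by positivity)]
      ring
    have h11 : ((d : ℝ) + 1) ^ 2 * N ^ d ≤ γ / 2 * N ^ (d + 1) := by
      calc ((d : ℝ) + 1) ^ 2 * N ^ d ≤ (γ / 2 * N) * N ^ d :=
          mul_le_mul_of_nonneg_right hN4 (by positivity)
        _ = γ / 2 * N ^ (d + 1) := by ring
    rw [← hNdef, h10] at h9
    have h12 : ((d : ℝ) + 1) ^ 2 * N ^ d + γ / 2 * N ^ (d + 1) ≤ γ * N ^ (d + 1) := by linarith
    exact le_trans h9 h12
  · intro i
    refine le_trans (hbad i) ?_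
    exact mul_le_mul_of_nonneg_right h1 (by positivity)

end Pool.Agent.KK.H16
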